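import Mathlib
import Pool.Agent.SZ.Main

/-!
# Irreducible ergodic invariant random subgroups of PSL(2,R) x PSL(2,R)

Every ergodic, almost surely irreducible invariant random subgroup of `PSL(2,R) x PSL(2,R)`,
different from the point mass at the whole group, is the lattice IRS of a lattice.

The definitions `GG`, `IsIRS`, `IsErg`, `Irred`, `topS`, `IsLatticeIRS` are in the files
`Pool/Agent/IRS/Psl.lean`, `Chab.lean`, `Defs.lean`, `FinL.lean`.  See
`Pool/Agent/SZ/BLUEPRINT.md` for the plan of the proof.
-/

set_option autoImplicit false

namespace Pool.Agent.Results.MP_b22d10_al.AllLattice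

open Pool.Agent.IRS MeasureTheory Filter Topology

/-- Every ergodic, almost surely irreducible invariant random subgroup of PSL(2,R) x PSL(2,R),
different from the point mass at the whole group, is the lattice IRS of a lattice. -/
theorem _root_.Pool.Agent.Results.MP_b22d10_al.AllLattice.result :
    ∀ μ : Measure (ClosedSubgroup GG), IsIRS μ → IsErg μ → (∀ᵐ H ∂μ, Irred H) →
      μ ≠ Measure.dirac topS → IsLatticeIRS μ := Pool.Agent.SZ.sz_main

end Pool.Agent.Results.MP_b22d10_al.AllLattice
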